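import Pool.Agent.X65.ECC.Comb

/-!
# The approximation algorithm for GlobalECC and its analysis
-/

set_option autoImplicit false

namespace Pool.Agent.X65.ECC

/-- The set of the colours of the node `v`, in the assignment given by the list `s` of pairs
(node, colour). -/
def colours (s : List (ℕ × ℕ)) (v : ℕ) : Finset ℕ :=
  ((s.filter fun x => decide (x.1 = v)).map fun x => x.2).toFinset

/-- An instance, apart from the budget: `V` is the list of the nodes, `C` the list of the colours,
`E` the list of the hyperedges (node list, colour). -/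
def IsInstance (V C : List ℕ) (E : List (List ℕ × ℕ)) : Prop :=
  V.Nodup ∧ (V ≠ [] → C ≠ []) ∧ ∀ e ∈ E, e.1 ≠ [] ∧ (∀ v ∈ e.1, v ∈ V) ∧ e.2 ∈ C

/-- Every node gets a nonempty set of colours. -/
def IsAssignment (V C : List ℕ) (S : ℕ → Finset ℕ) : Prop :=
  ∀ v ∈ V, (S v).Nonempty ∧ ∀ c ∈ S v, c ∈ C

/-- The budget used by an assignment: `∑_v (|S(v)| - 1)`. -/
def cost (V : List ℕ) (S : ℕ → Finset ℕ) : ℕ := ∑ v ∈ V.toFinset, ((S v).card - 1)

/-- The number of mistakes: the hyperedges with a node which does not have their colour. -/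
def mistakes (E : List (List ℕ × ℕ)) (S : ℕ → Finset ℕ) : ℕ :=
  E.countP fun e => decide (∃ v ∈ e.1, e.2 ∉ S v)

theorem mem_colours {s : List (ℕ × ℕ)} {v c : ℕ} : c ∈ colours s v ↔ (v, c) ∈ s := by
  unfold colours
  rw [List.mem_toFinset, List.mem_map]
  constructor
  · rintro ⟨⟨a, d⟩, h, h'⟩
    rw [List.mem_filter] at h
    simp only [decide_eq_true_eq] at h h'
    obtain ⟨h1, h2⟩ := h
    subst h2 h'
    exact h1
  · intro h
    exact ⟨(v, c), List.mem_filter.2 ⟨h, by simp⟩, rfl⟩

/-- The sequence of steps: `T` steps at each node (if `T ≤ N`). -/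
def sched (V : List ℕ) (N T : ℕ) : List ℕ :=
  V.flatMap fun v => ((List.range N).filter fun t => decide (t < T)).map fun _ => v

theorem length_filter_lt {N T : ℕ} (h : T ≤ N) :
    ((List.range N).filter fun t => decide (t < T)).length = T := by
  rw [length_filter_range]
  have : ((Finset.range N).filter fun i => decide (i < T) = true) = Finset.range T := by
    ext i
    simp only [decide_eq_true_eq, Finset.mem_filter, Finset.mem_range]
    omega
  rw [this, Finset.card_range]

theorem mem_sched {V : List ℕ} {N T v : ℕ} (h : v ∈ sched V N T) : v ∈ V := by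
  unfold sched at h
  rw [List.mem_flatMap] at h
  obtain ⟨w, hw, h⟩ := h
  rw [List.mem_map] at h
  obtain ⟨t, _, rfl⟩ := h
  exact hw

theorem sum_sched {N T : ℕ} (h : T ≤ N) (f : ℕ → ℕ) : ∀ V : List ℕ,
    ((sched V N T).map f).sum = T * (V.map f).sum
  | [] => by simp [sched]
  | v :: V => by
    have ih := sum_sched h f V
    unfold sched at ih ⊢
    rw [List.flatMap_cons, List.map_append, List.sum_append, ih, List.map_cons, List.sum_cons,
      mul_add]
    congr 1
    rw [List.map_map]
    have : ∀ l : List ℕ, (l.map (f ∘ fun _ => v)).sum = l.length * f v := by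
      intro l
      induction l with
      | nil => simp
      | cons a l ih => simp [ih, add_mul, add_comm]
    rw [this, length_filter_lt h]

/-- The assignment read off from the loads. -/
def out (V C : List ℕ) (E : List (List ℕ × ℕ)) (cap : ℕ) (L : List ℕ) : List (ℕ × ℕ) :=
  V.flatMap fun v => if fin E cap L v = [] then [(v, C.getD 0 0)] else
    (fin E cap L v).map fun c => (v, c)

theorem mem_out {V C : List ℕ} {E : List (List ℕ × ℕ)} {cap : ℕ} {L : List ℕ} {v c : ℕ} :
    (v, c) ∈ out V C E cap L ↔ v ∈ V ∧ (c ∈ fin E cap L v ∨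
      fin E cap L v = [] ∧ c = C.getD 0 0) := by
  unfold out
  rw [List.mem_flatMap]
  constructor
  · rintro ⟨w, hw, h⟩
    by_cases hf : fin E cap L w = []
    · rw [if_pos hf, List.mem_singleton, Prod.mk.injEq] at h
      obtain ⟨rfl, rfl⟩ := h
      exact ⟨hw, Or.inr ⟨hf, rfl⟩⟩
    · rw [if_neg hf, List.mem_map] at h
      obtain ⟨d, hd, h⟩ := h
      rw [Prod.mk.injEq] at h
      obtain ⟨rfl, rfl⟩ := h
      exact ⟨hw, Or.inl hd⟩
  · rintro ⟨hv, h | ⟨h, rfl⟩⟩
    · refine ⟨v, hv, ?_⟩
      rw [if_neg (List.ne_nil_of_mem h)]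
      exact List.mem_map.2 ⟨c, h, rfl⟩
    · refine ⟨v, hv, ?_⟩
      rw [if_pos h]
      exact List.mem_singleton.2 rfl

/-- The candidate for given parameters. -/
def cand (V C : List ℕ) (E : List (List ℕ × ℕ)) (N cap T : ℕ) : List (ℕ × ℕ) :=
  out V C E cap (run E cap (sched V N T))

section

variable {V C : List ℕ} {E : List (List ℕ × ℕ)} {N cap T : ℕ}

theorem default_mem (hI : IsInstance V C E) {v : ℕ} (hv : v ∈ V) : C.getD 0 0 ∈ C := by
  have h := hI.2.1 (List.ne_nil_of_mem hv)
  cases C with
  | nil => exact absurd rfl h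
  | cons a l => simp

theorem cl_mem (hI : IsInstance V C E) {i : ℕ} (hi : i < E.length) : cl E i ∈ C := by
  unfold cl
  rw [List.getD_eq_getElem _ _ hi]
  exact (hI.2.2 _ (List.getElem_mem hi)).2.2

theorem isAssignment_out (hI : IsInstance V C E) (L : List ℕ) :
    IsAssignment V C (colours (out V C E cap L)) := by
  intro v hv
  constructor
  · by_cases hf : fin E cap L v = []
    · exact ⟨C.getD 0 0, mem_colours.2 (mem_out.2 ⟨hv, Or.inr ⟨hf, rfl⟩⟩)⟩
    · obtain ⟨c, hc⟩ := List.exists_mem_of_ne_nil _ hf
      exact ⟨c, mem_colours.2 (mem_out.2 ⟨hv, Or.inl hc⟩)⟩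
  · intro c hc
    rcases (mem_out.1 (mem_colours.1 hc)).2 with h | ⟨_, rfl⟩
    · obtain ⟨i, hi, rfl⟩ := mem_fin.1 h
      exact cl_mem hI (act_lt hi)
    · exact default_mem hI hv

theorem card_colours_out (L : List ℕ) {v : ℕ} (hv : v ∈ V) :
    (colours (out V C E cap L) v).card - 1 = (fin E cap L v).toFinset.card - 1 := by
  by_cases hf : fin E cap L v = []
  · have h1 : colours (out V C E cap L) v = {C.getD 0 0} := by
      ext c
      rw [mem_colours, mem_out, Finset.mem_singleton]
      simp [hf, hv]
    rw [h1, hf]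
    simp
  · have h1 : colours (out V C E cap L) v = (fin E cap L v).toFinset := by
      ext c
      rw [mem_colours, mem_out, List.mem_toFinset]
      simp [hf, hv]
    rw [h1]

theorem countP_eq_card {α : Type} (l : List α) (d : α) (p : α → Bool) :
    l.countP p = ((Finset.range l.length).filter fun i => p (l.getD i d) = true).card := by
  have h : l = (List.range l.length).map fun i => l.getD i d := by
    apply List.ext_getElem
    · simp
    · intro i h1 h2
      rw [List.getElem_map, List.getElem_range, List.getD_eq_getElem _ _ h1]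
  conv_lhs => rw [h]
  rw [List.countP_map, List.countP_eq_length_filter, length_filter_range]
  rfl

theorem mistakes_eq (S : ℕ → Finset ℕ) : mistakes E S =
    ((Finset.range E.length).filter fun i => ∃ v ∈ nd E i, cl E i ∉ S v).card := by
  unfold mistakes
  rw [countP_eq_card E ([], 0)]
  simp only [decide_eq_true_eq]
  rfl

/-- The steps cost: `T` times the cost of the candidate is at most the dual value. -/
theorem cand_cost (hI : IsInstance V C E) (hT : T ≤ N) :
    T * cost V (colours (cand V C E N cap T)) ≤ dual E cap (zeros E) (sched V N T) := by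
  have h1 := run_cost E cap (sched V N T)
  rw [sum_sched hT] at h1
  refine le_trans (Nat.mul_le_mul_left _ (le_of_eq ?_)) h1
  unfold cost
  rw [List.sum_toFinset _ hI.1]
  congr 1
  refine List.map_congr_left fun v hv => ?_
  exact card_colours_out _ hv

theorem cand_mistakes (hI : IsInstance V C E) :
    cap * mistakes E (colours (cand V C E N cap T)) ≤
      2 * dual E cap (zeros E) (sched V N T) := by
  refine le_trans (Nat.mul_le_mul_left _ ?_) (run_total E cap (sched V N T))
  rw [mistakes_eq]
  refine Finset.card_le_card ?_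
  intro i hi
  rw [Finset.mem_filter, Finset.mem_range] at hi ⊢
  refine ⟨hi.1, fun hlt => ?_⟩
  obtain ⟨v, hv, hc⟩ := hi.2
  apply hc
  rw [mem_colours]
  unfold cand
  rw [mem_out]
  refine ⟨?_, Or.inl (mem_fin.2 ⟨i, act_iff.2 ⟨hv, hlt⟩, rfl⟩)⟩
  unfold nd at hv
  rw [List.getD_eq_getElem _ _ hi.1] at hv
  exact (hI.2.2 _ (List.getElem_mem hi.1)).2.1 v hv

theorem dual_le (hI : IsInstance V C E) (hT : T ≤ N) {S : ℕ → Finset ℕ}
    (hS : IsAssignment V C S) :
    dual E cap (zeros E) (sched V N T) ≤ cap * mistakes E S + T * cost V S := by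
  have h1 := run_dual E cap S (fun i => ∃ v ∈ nd E i, cl E i ∉ S v)
    (fun v i hv hM => by
      by_contra hc
      exact hM ⟨v, hv, hc⟩) (sched V N T) (fun v hv => (hS v (mem_sched hv)).1)
  rw [sum_sched hT, ← mistakes_eq] at h1
  unfold cost
  rw [List.sum_toFinset _ hI.1]
  exact h1

/-- With no steps, the candidate has the colours that are needed, so it costs no more than an
assignment without mistakes. -/
theorem cand_zero (hI : IsInstance V C E) {S : ℕ → Finset ℕ}
    (hS : IsAssignment V C S) (h0 : mistakes E S = 0) :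
    cost V (colours (cand V C E N cap 0)) ≤ cost V S := by
  unfold cost
  refine Finset.sum_le_sum fun v hv => ?_
  rw [List.mem_toFinset] at hv
  unfold cand
  rw [card_colours_out _ hv]
  refine Nat.sub_le_sub_right (Finset.card_le_card ?_) 1
  intro c hc
  rw [List.mem_toFinset, mem_fin] at hc
  obtain ⟨i, hi, rfl⟩ := hc
  by_contra hcon
  rw [mistakes_eq, Finset.card_eq_zero] at h0
  have : i ∈ (Finset.range E.length).filter fun i => ∃ v ∈ nd E i, cl E i ∉ S v :=
    Finset.mem_filter.2 ⟨Finset.mem_range.2 (act_lt hi), v, (act_iff.1 hi).1, hcon⟩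
  rw [h0] at this
  simp at this

end

/-- The cost of the assignment given by `s`. -/
def costL (V : List ℕ) (s : List (ℕ × ℕ)) : ℕ :=
  (V.map fun v => (((s.filter fun x => decide (x.1 = v)).map fun x => x.2).dedup.length - 1)).sum

/-- The number of mistakes of the assignment given by `s`. -/
def mistL (E : List (List ℕ × ℕ)) (s : List (ℕ × ℕ)) : ℕ :=
  (E.filter fun e => e.1.any fun v => !(decide ((v, e.2) ∈ s))).length

theorem costL_eq {V : List ℕ} (hV : V.Nodup) (s : List (ℕ × ℕ)) :
    costL V s = cost V (colours s) := by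
  unfold costL cost colours
  rw [List.sum_toFinset _ hV]
  congr 1

theorem mistL_eq (E : List (List ℕ × ℕ)) (s : List (ℕ × ℕ)) :
    mistL E s = mistakes E (colours s) := by
  unfold mistL mistakes
  rw [← List.countP_eq_length_filter]
  refine List.countP_congr fun e _ => ?_
  rw [List.any_eq_true, decide_eq_true_eq]
  simp only [mem_colours, Bool.not_eq_true', decide_eq_false_iff_not]

/-- The test for a guess `m` of the optimum. -/
def good (p q : ℕ) (V C : List ℕ) (E : List (List ℕ × ℕ)) (b m : ℕ) : Bool :=
  decide (p * costL V (cand V C E (p * E.length + (E.length + 1)) (q * b) (p * m)) ≤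
    (p + q) * b) &&
  decide (q * mistL E (cand V C E (p * E.length + (E.length + 1)) (q * b) (p * m)) ≤
    2 * (p + q) * m)

/-- The least good guess. -/
def guess (p q : ℕ) (V C : List ℕ) (E : List (List ℕ × ℕ)) (b : ℕ) : ℕ :=
  (((List.range (E.length + 1)).filter fun m => good p q V C E b m).head?).getD 0

/-- The algorithm. -/
def alg (p q : ℕ) (x : List ℕ × List ℕ × List (List ℕ × ℕ) × ℕ) : List (ℕ × ℕ) :=
  if x.2.2.2 = 0 then
    cand x.1 x.2.1 x.2.2.1 (p * x.2.2.1.length + (x.2.2.1.length + 1)) 1 (x.2.2.1.length + 1)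
  else
    cand x.1 x.2.1 x.2.2.1 (p * x.2.2.1.length + (x.2.2.1.length + 1)) (q * x.2.2.2)
      (p * guess p q x.1 x.2.1 x.2.2.1 x.2.2.2)

theorem good_of {p q : ℕ} (hp : 0 < p) (hq : 0 < q) {V C : List ℕ} {E : List (List ℕ × ℕ)}
    {b : ℕ} (hb : b ≠ 0) (hI : IsInstance V C E) {S : ℕ → Finset ℕ} (hS : IsAssignment V C S)
    (hc : cost V S ≤ b) : good p q V C E b (mistakes E S) = true := by
  set m := mistakes E S with hm
  have hmE : m ≤ E.length := List.countP_le_length
  have hT : p * m ≤ p * E.length + (E.length + 1) := by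
    have := Nat.mul_le_mul_left p hmE
    omega
  have h1 := cand_cost (cap := q * b) hI hT
  have h2 := cand_mistakes (cap := q * b) (N := p * E.length + (E.length + 1)) (T := p * m) hI
  have h3 := dual_le (cap := q * b) hI hT hS
  rw [← hm] at h3
  unfold good
  rw [Bool.and_eq_true, decide_eq_true_eq, decide_eq_true_eq, costL_eq hI.1, mistL_eq]
  set D := dual E (q * b) (zeros E) (sched V (p * E.length + (E.length + 1)) (p * m))
  have h4 : D ≤ (p + q) * b * m := by
    refine h3.trans ?_
    have : p * m * cost V S ≤ p * m * b := Nat.mul_le_mul_left _ hc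
    calc q * b * m + p * m * cost V S ≤ q * b * m + p * m * b := Nat.add_le_add_left this _
      _ = (p + q) * b * m := by ring
  have hb' : 0 < b := Nat.pos_of_ne_zero hb
  constructor
  · rcases Nat.eq_zero_or_pos m with h0 | h0
    · have h5 : cost V (colours (cand V C E (p * E.length + (E.length + 1)) (q * b) (p * m))) ≤
          cost V S := by
        rw [h0, mul_zero]
        exact cand_zero hI hS (hm.symm.trans h0)
      calc p * cost V (colours (cand V C E (p * E.length + (E.length + 1)) (q * b) (p * m)))
          ≤ p * b := Nat.mul_le_mul_left _ (h5.trans hc)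
        _ ≤ (p + q) * b := Nat.mul_le_mul_right _ (by omega)
    · refine Nat.le_of_mul_le_mul_left ?_ h0
      calc m * (p * cost V (colours (cand V C E (p * E.length + (E.length + 1)) (q * b) (p * m))))
          = p * m * cost V (colours
              (cand V C E (p * E.length + (E.length + 1)) (q * b) (p * m))) := by ring
        _ ≤ (p + q) * b * m := h1.trans h4
        _ = m * ((p + q) * b) := by ring
  · refine Nat.le_of_mul_le_mul_left ?_ hb'
    calc b * (q * mistakes E (colours
              (cand V C E (p * E.length + (E.length + 1)) (q * b) (p * m))))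
        = q * b * mistakes E (colours
              (cand V C E (p * E.length + (E.length + 1)) (q * b) (p * m))) := by ring
      _ ≤ 2 * ((p + q) * b * m) := h2.trans (Nat.mul_le_mul_left _ h4)
      _ = b * (2 * (p + q) * m) := by ring

theorem guess_spec {p q : ℕ} {V C : List ℕ} {E : List (List ℕ × ℕ)} {b k : ℕ}
    (hk : k ≤ E.length) (h : good p q V C E b k = true) :
    good p q V C E b (guess p q V C E b) = true ∧ guess p q V C E b ≤ k := by
  unfold guess
  rw [List.head?_filter]
  cases hf : (List.range (E.length + 1)).find? (fun m => good p q V C E b m) with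
  | none =>
    rw [List.find?_eq_none] at hf
    exact absurd h (hf k (List.mem_range.2 (by omega)))
  | some i =>
    rw [List.find?_range_eq_some] at hf
    refine ⟨hf.1, ?_⟩
    rw [Option.getD_some]
    by_contra hlt
    have := hf.2.2 k (by omega)
    rw [h] at this
    simp at this

/-- The analysis of the algorithm. -/
theorem alg_spec {p q : ℕ} (hp : 0 < p) (hq : 0 < q) {V C : List ℕ} {E : List (List ℕ × ℕ)}
    {b : ℕ} (hI : IsInstance V C E) :
    IsAssignment V C (colours (alg p q (V, C, E, b))) ∧
    p * cost V (colours (alg p q (V, C, E, b))) ≤ (p + q) * b ∧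
    ∀ S : ℕ → Finset ℕ, IsAssignment V C S → cost V S ≤ b →
      q * mistakes E (colours (alg p q (V, C, E, b))) ≤ 2 * (p + q) * mistakes E S := by
  have hS0 : IsAssignment V C (fun _ => {C.getD 0 0}) := by
    intro v hv
    refine ⟨Finset.singleton_nonempty _, fun c hc => ?_⟩
    rw [Finset.mem_singleton] at hc
    rw [hc]
    exact default_mem hI hv
  have hc0 : cost V (fun _ => {C.getD 0 0}) = 0 := by simp [cost]
  unfold alg
  simp only
  by_cases hb : b = 0
  · subst hb
    rw [if_pos rfl]
    set N := p * E.length + (E.length + 1) with hN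
    have hT : E.length + 1 ≤ N := by omega
    have h1 := cand_cost (cap := 1) hI hT
    have h2 := cand_mistakes (cap := 1) (N := N) (T := E.length + 1) hI
    refine ⟨isAssignment_out hI _, ?_, ?_⟩
    · have h3 := dual_le (cap := 1) hI hT hS0
      rw [hc0, mul_zero, add_zero, one_mul] at h3
      have h4 : mistakes E (fun _ => {C.getD 0 0}) ≤ E.length := List.countP_le_length
      have h5 : cost V (colours (cand V C E N 1 (E.length + 1))) = 0 := by
        by_contra hne
        have h6 := Nat.mul_le_mul_left (E.length + 1) (Nat.one_le_iff_ne_zero.2 hne)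
        omega
      rw [h5]
      simp
    · intro S hS hc
      have h3 := dual_le (cap := 1) hI hT hS
      have hc' : cost V S = 0 := by omega
      rw [hc', mul_zero, add_zero, one_mul] at h3
      have h4 : mistakes E (colours (cand V C E N 1 (E.length + 1))) ≤ 2 * mistakes E S := by
        omega
      calc q * mistakes E (colours (cand V C E N 1 (E.length + 1)))
          ≤ q * (2 * mistakes E S) := Nat.mul_le_mul_left _ h4
        _ = 2 * q * mistakes E S := by ring
        _ ≤ 2 * (p + q) * mistakes E S := Nat.mul_le_mul_right _ (by omega)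
  · rw [if_neg hb]
    have hg : ∀ S : ℕ → Finset ℕ, IsAssignment V C S → cost V S ≤ b →
        good p q V C E b (guess p q V C E b) = true ∧ guess p q V C E b ≤ mistakes E S :=
      fun S hS hc => guess_spec List.countP_le_length (good_of hp hq hb hI hS hc)
    have h1 := (hg _ hS0 (by rw [hc0]; exact Nat.zero_le _)).1
    unfold good at h1
    rw [Bool.and_eq_true, decide_eq_true_eq, decide_eq_true_eq, costL_eq hI.1, mistL_eq] at h1
    refine ⟨isAssignment_out hI _, h1.1, fun S hS hc => ?_⟩
    exact h1.2.trans (Nat.mul_le_mul_left _ (hg S hS hc).2)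

end Pool.Agent.X65.ECC
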