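import Mathlib

/-!
# The greedy primal-dual procedure for edge-coloured clustering with a global budget

`E` is the list of the hyperedges, each a pair (list of its nodes, its colour). A list `L` of
natural numbers gives each hyperedge a load; a hyperedge with load less than `cap` is unsaturated.
A step at the node `v` looks at the colours of the unsaturated hyperedges through `v`; if there are
at least two, the load of one hyperedge of each of these colours is raised by one.
-/

set_option autoImplicit false

namespace Pool.Agent.X65.ECC

/-- the nodes of hyperedge number `i` -/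
def nd (E : List (List ℕ × ℕ)) (i : ℕ) : List ℕ := (E.getD i ([], 0)).1

/-- the colour of hyperedge number `i` -/
def cl (E : List (List ℕ × ℕ)) (i : ℕ) : ℕ := (E.getD i ([], 0)).2

/-- the load of hyperedge number `i` -/
def ld (L : List ℕ) (i : ℕ) : ℕ := L.getD i 0

/-- hyperedge number `i` contains `v` and is unsaturated -/
def act (E : List (List ℕ × ℕ)) (cap v : ℕ) (L : List ℕ) (i : ℕ) : Bool :=
  decide (v ∈ nd E i) && decide (ld L i < cap)

/-- hyperedge number `i` is the first unsaturated one through `v` with its colour -/
def pick (E : List (List ℕ × ℕ)) (cap v : ℕ) (L : List ℕ) (i : ℕ) : Bool :=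
  act E cap v L i && (List.range E.length).all fun j =>
    !(decide (j < i) && (act E cap v L j && decide (cl E j = cl E i)))

/-- the number of the colours of the unsaturated hyperedges through `v` -/
def npick (E : List (List ℕ × ℕ)) (cap v : ℕ) (L : List ℕ) : ℕ :=
  ((List.range E.length).filter fun i => pick E cap v L i).length

/-- a step at the node `v` -/
def step (E : List (List ℕ × ℕ)) (cap : ℕ) (L : List ℕ) (v : ℕ) : List ℕ :=
  if 2 ≤ npick E cap v L then
    (List.range E.length).map fun i => ld L i + if pick E cap v L i = true then 1 else 0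
  else L

/-- the dual value of a sequence of steps -/
def dual (E : List (List ℕ × ℕ)) (cap : ℕ) : List ℕ → List ℕ → ℕ
  | _, [] => 0
  | L, v :: s => (npick E cap v L - 1) + dual E cap (step E cap L v) s

/-- the colours of the unsaturated hyperedges through `v` -/
def fin (E : List (List ℕ × ℕ)) (cap : ℕ) (L : List ℕ) (v : ℕ) : List ℕ :=
  ((List.range E.length).filter fun i => act E cap v L i).map fun i => cl E i

section

variable {E : List (List ℕ × ℕ)} {cap v : ℕ} {L : List ℕ}

theorem act_iff {i : ℕ} : act E cap v L i = true ↔ v ∈ nd E i ∧ ld L i < cap := by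
  simp [act]

theorem act_lt {i : ℕ} (h : act E cap v L i = true) : i < E.length := by
  rw [act_iff] at h
  by_contra hi
  have : nd E i = [] := by
    unfold nd
    rw [List.getD_eq_default _ _ (by omega)]
  rw [this] at h
  simp at h

theorem pick_iff {i : ℕ} : pick E cap v L i = true ↔ act E cap v L i = true ∧
    ∀ j, j < i → act E cap v L j = true → cl E j ≠ cl E i := by
  unfold pick
  rw [Bool.and_eq_true, List.all_eq_true]
  refine and_congr_right fun _ => ⟨fun h j hj ha hc => ?_, fun h j _ => ?_⟩
  · have h1 := h j (List.mem_range.2 (act_lt ha))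
    simp [hj, ha, hc] at h1
  · by_cases hj : j < i
    · by_cases ha : act E cap v L j = true
      · have := h j hj ha
        simp [this]
      · simp [ha]
    · simp [hj]

theorem length_filter_range (n : ℕ) (p : ℕ → Bool) :
    ((List.range n).filter p).length = ((Finset.range n).filter fun i => p i = true).card := by
  induction n with
  | zero => simp
  | succ n ih =>
    rw [List.range_succ, List.filter_append, List.length_append, ih, Finset.range_add_one,
      Finset.filter_insert]
    by_cases h : p n = true
    · rw [if_pos h, Finset.card_insert_of_notMem (by simp)]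
      simp [h]
    · rw [if_neg h]
      simp [h]

theorem npick_eq : npick E cap v L =
    ((Finset.range E.length).filter fun i => pick E cap v L i = true).card :=
  length_filter_range _ _

theorem mem_fin {c : ℕ} : c ∈ fin E cap L v ↔ ∃ i, act E cap v L i = true ∧ cl E i = c := by
  unfold fin
  rw [List.mem_map]
  constructor
  · rintro ⟨i, hi, h⟩
    exact ⟨i, (List.mem_filter.1 hi).2, h⟩
  · rintro ⟨i, hi, h⟩
    exact ⟨i, List.mem_filter.2 ⟨List.mem_range.2 (act_lt hi), hi⟩, h⟩

theorem ld_step (hL : L.length = E.length) (i : ℕ) :
    ld (step E cap L v) i = ld L i +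
      if 2 ≤ npick E cap v L ∧ pick E cap v L i = true then 1 else 0 := by
  unfold step
  by_cases h : 2 ≤ npick E cap v L
  · rw [if_pos h]
    by_cases hi : i < E.length
    · unfold ld
      rw [List.getD_eq_getElem _ _ (by simpa using hi)]
      simp [h]
    · have h1 : ¬ (pick E cap v L i = true) := fun hp => hi (act_lt (pick_iff.1 hp).1)
      rw [if_neg (fun h => h1 h.2)]
      unfold ld
      rw [List.getD_eq_default _ _ (by simp; omega), List.getD_eq_default _ _ (by omega)]
  · rw [if_neg h, if_neg (fun h' => h h'.1), add_zero]

theorem length_step (hL : L.length = E.length) : (step E cap L v).length = E.length := by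
  unfold step
  split_ifs
  · simp
  · exact hL

theorem step_le (hL : L.length = E.length) (hc : ∀ i, ld L i ≤ cap) (i : ℕ) :
    ld (step E cap L v) i ≤ cap := by
  rw [ld_step hL]
  split_ifs with h
  · have := (act_iff.1 (pick_iff.1 h.2).1).2
    omega
  · simpa using hc i

theorem le_step (hL : L.length = E.length) (i : ℕ) : ld L i ≤ ld (step E cap L v) i := by
  rw [ld_step hL]
  exact Nat.le_add_right _ _

/-- the increase of the loads of the hyperedges in a set `M` -/
theorem sum_step (hL : L.length = E.length) (M : ℕ → Prop) [DecidablePred M] :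
    ∑ i ∈ (Finset.range E.length).filter M, ld (step E cap L v) i =
      (∑ i ∈ (Finset.range E.length).filter M, ld L i) +
        if 2 ≤ npick E cap v L then
          ((Finset.range E.length).filter fun i => M i ∧ pick E cap v L i = true).card else 0 := by
  rw [Finset.sum_congr rfl fun i _ => ld_step hL i, Finset.sum_add_distrib]
  congr 1
  by_cases h : 2 ≤ npick E cap v L
  · rw [if_pos h]
    simp only [h, true_and]
    rw [Finset.sum_boole, Finset.filter_filter]
    rfl
  · rw [if_neg h]
    simp [h]

theorem total_step (hL : L.length = E.length) :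
    ∑ i ∈ Finset.range E.length, ld (step E cap L v) i ≤
      (∑ i ∈ Finset.range E.length, ld L i) + 2 * (npick E cap v L - 1) := by
  have h := sum_step (cap := cap) (v := v) hL (fun _ => True)
  simp only [Finset.filter_true, true_and] at h
  rw [h, ← npick_eq]
  split_ifs with h2
  · omega
  · omega

/-- the lower bound for one step -/
theorem dual_step (hL : L.length = E.length) (T : Finset ℕ) (hT : T.Nonempty)
    (M : ℕ → Prop) [DecidablePred M] (hM : ∀ i, v ∈ nd E i → ¬ M i → cl E i ∈ T) :
    (npick E cap v L - 1) + ∑ i ∈ (Finset.range E.length).filter M, ld L i ≤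
      (∑ i ∈ (Finset.range E.length).filter M, ld (step E cap L v) i) + (T.card - 1) := by
  rw [sum_step hL M]
  by_cases h : 2 ≤ npick E cap v L
  · rw [if_pos h]
    have h1 : npick E cap v L ≤
        ((Finset.range E.length).filter fun i => M i ∧ pick E cap v L i = true).card + T.card := by
      rw [npick_eq]
      have h2 : ((Finset.range E.length).filter fun i => pick E cap v L i = true) =
          ((Finset.range E.length).filter fun i => M i ∧ pick E cap v L i = true) ∪
            ((Finset.range E.length).filter fun i => ¬ M i ∧ pick E cap v L i = true) := by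
        ext i
        simp only [Finset.mem_filter, Finset.mem_union, Finset.mem_range]
        tauto
      rw [h2]
      refine (Finset.card_union_le _ _).trans (Nat.add_le_add_left ?_ _)
      refine Finset.card_le_card_of_injOn (cl E) ?_ ?_
      · intro i hi
        have hi' := (Finset.mem_filter.1 (Finset.mem_coe.1 hi)).2
        exact hM i (act_iff.1 (pick_iff.1 hi'.2).1).1 hi'.1
      · intro i hi j hj hij
        have hi' := (Finset.mem_filter.1 (Finset.mem_coe.1 hi)).2
        have hj' := (Finset.mem_filter.1 (Finset.mem_coe.1 hj)).2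
        have hi2 := pick_iff.1 hi'.2
        have hj2 := pick_iff.1 hj'.2
        by_contra hne
        rcases Nat.lt_or_gt_of_ne hne with hlt | hlt
        · exact hj2.2 i hlt hi2.1 hij
        · exact hi2.2 j hlt hj2.1 hij.symm
    have h3 := hT.card_pos
    omega
  · rw [if_neg h]
    omega

/-- monotonicity: the colours that are left at the end -/
theorem fin_card_le (Lf : List ℕ) (h : ∀ i, ld L i ≤ ld Lf i) :
    (fin E cap Lf v).toFinset.card ≤ npick E cap v L := by
  classical
  rw [npick_eq]
  have key : ∀ c ∈ (fin E cap Lf v).toFinset, ∃ i, i ∈ ((Finset.range E.length).filter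
      fun i => pick E cap v L i = true) ∧ cl E i = c := by
    intro c hc
    rw [List.mem_toFinset, mem_fin] at hc
    have hex : ∃ i, act E cap v L i = true ∧ cl E i = c := by
      obtain ⟨i, hi, hic⟩ := hc
      rw [act_iff] at hi
      exact ⟨i, act_iff.2 ⟨hi.1, (h i).trans_lt hi.2⟩, hic⟩
    refine ⟨Nat.find hex, ?_, (Nat.find_spec hex).2⟩
    have h1 := Nat.find_spec hex
    rw [Finset.mem_filter, Finset.mem_range]
    refine ⟨act_lt h1.1, pick_iff.2 ⟨h1.1, fun j hj ha hc' => ?_⟩⟩
    exact Nat.find_min hex hj ⟨ha, hc'.trans h1.2⟩
  choose! f hf using key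
  refine Finset.card_le_card_of_injOn f (fun c hc => (hf c hc).1) ?_
  intro c hc d hd hcd
  rw [← (hf c hc).2, ← (hf d hd).2, hcd]

end

/-- the state after a sequence of steps -/
theorem fold_length (E : List (List ℕ × ℕ)) (cap : ℕ) : ∀ (s L : List ℕ), L.length = E.length →
    (s.foldl (step E cap) L).length = E.length
  | [], _, h => h
  | _ :: s, _, h => fold_length E cap s _ (length_step h)

theorem fold_le_cap (E : List (List ℕ × ℕ)) (cap : ℕ) : ∀ (s L : List ℕ), L.length = E.length →
    (∀ i, ld L i ≤ cap) → ∀ i, ld (s.foldl (step E cap) L) i ≤ cap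
  | [], _, _, h => h
  | _ :: s, _, hL, h => fold_le_cap E cap s _ (length_step hL) (step_le hL h)

theorem fold_mono (E : List (List ℕ × ℕ)) (cap : ℕ) : ∀ (s L : List ℕ), L.length = E.length →
    ∀ i, ld L i ≤ ld (s.foldl (step E cap) L) i
  | [], _, _, _ => le_rfl
  | _ :: s, _, hL, i => (le_step hL i).trans (fold_mono E cap s _ (length_step hL) i)

theorem fold_total (E : List (List ℕ × ℕ)) (cap : ℕ) : ∀ (s L : List ℕ), L.length = E.length →
    ∑ i ∈ Finset.range E.length, ld (s.foldl (step E cap) L) i ≤
      (∑ i ∈ Finset.range E.length, ld L i) + 2 * dual E cap L s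
  | [], _, _ => by simp [dual]
  | v :: s, L, hL => by
    have h1 := fold_total E cap s (step E cap L v) (length_step hL)
    have h2 := total_step (cap := cap) (v := v) hL
    simp only [List.foldl_cons, dual]
    omega

theorem fold_dual (E : List (List ℕ × ℕ)) (cap : ℕ) (T : ℕ → Finset ℕ)
    (M : ℕ → Prop) [DecidablePred M] (hM : ∀ v i, v ∈ nd E i → ¬ M i → cl E i ∈ T v) :
    ∀ (s L : List ℕ), L.length = E.length → (∀ v ∈ s, (T v).Nonempty) →
    dual E cap L s + ∑ i ∈ (Finset.range E.length).filter M, ld L i ≤
      (∑ i ∈ (Finset.range E.length).filter M, ld (s.foldl (step E cap) L) i) +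
        (s.map fun v => (T v).card - 1).sum
  | [], _, _, _ => by simp [dual]
  | v :: s, L, hL, hs => by
    have h1 := fold_dual E cap T M hM s (step E cap L v) (length_step hL)
      (fun w hw => hs w (List.mem_cons_of_mem _ hw))
    have h2 := dual_step (cap := cap) (v := v) hL (T v) (hs v List.mem_cons_self) M (hM v)
    simp only [List.foldl_cons, dual, List.map_cons, List.sum_cons]
    omega

theorem fold_cost (E : List (List ℕ × ℕ)) (cap : ℕ) : ∀ (s L Lf : List ℕ), L.length = E.length →
    (∀ i, ld (s.foldl (step E cap) L) i ≤ ld Lf i) →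
    (s.map fun v => (fin E cap Lf v).toFinset.card - 1).sum ≤ dual E cap L s
  | [], _, _, _, _ => by simp [dual]
  | v :: s, L, Lf, hL, h => by
    have h1 := fold_cost E cap s (step E cap L v) Lf (length_step hL) h
    have h2 : ∀ i, ld L i ≤ ld Lf i := fun i => (fold_mono E cap (v :: s) L hL i).trans (h i)
    have h3 := fin_card_le (E := E) (cap := cap) (v := v) Lf h2
    simp only [dual, List.map_cons, List.sum_cons]
    omega

/-- the initial state -/
def zeros (E : List (List ℕ × ℕ)) : List ℕ := E.map fun _ => 0

theorem ld_zeros (E : List (List ℕ × ℕ)) (i : ℕ) : ld (zeros E) i = 0 := by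
  unfold ld zeros
  by_cases h : i < E.length
  · rw [List.getD_eq_getElem _ _ (by simpa using h)]
    simp
  · rw [List.getD_eq_default _ _ (by simp; omega)]

theorem length_zeros (E : List (List ℕ × ℕ)) : (zeros E).length = E.length := by simp [zeros]

/-- the procedure -/
def run (E : List (List ℕ × ℕ)) (cap : ℕ) (s : List ℕ) : List ℕ := s.foldl (step E cap) (zeros E)

/-- the three inequalities -/
theorem run_total (E : List (List ℕ × ℕ)) (cap : ℕ) (s : List ℕ) :
    cap * ((Finset.range E.length).filter fun i => ¬ (ld (run E cap s) i < cap)).card ≤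
      2 * dual E cap (zeros E) s := by
  have h1 := fold_total E cap s (zeros E) (length_zeros E)
  rw [Finset.sum_eq_zero (fun i _ => ld_zeros E i), zero_add] at h1
  refine le_trans ?_ h1
  rw [mul_comm, ← smul_eq_mul, ← Finset.sum_const]
  refine (Finset.sum_le_sum fun i hi => ?_).trans
    (Finset.sum_le_sum_of_subset (f := fun i => ld (run E cap s) i) (Finset.filter_subset _ _))
  have := (Finset.mem_filter.1 hi).2
  omega

theorem run_dual (E : List (List ℕ × ℕ)) (cap : ℕ) (T : ℕ → Finset ℕ)
    (M : ℕ → Prop) [DecidablePred M] (hM : ∀ v i, v ∈ nd E i → ¬ M i → cl E i ∈ T v)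
    (s : List ℕ) (hs : ∀ v ∈ s, (T v).Nonempty) :
    dual E cap (zeros E) s ≤ cap * ((Finset.range E.length).filter M).card +
        (s.map fun v => (T v).card - 1).sum := by
  have h1 := fold_dual E cap T M hM s (zeros E) (length_zeros E) hs
  rw [Finset.sum_eq_zero (fun i _ => ld_zeros E i), add_zero] at h1
  refine h1.trans (Nat.add_le_add_right ?_ _)
  rw [mul_comm, ← smul_eq_mul, ← Finset.sum_const]
  refine Finset.sum_le_sum fun i _ => ?_
  exact fold_le_cap E cap s (zeros E) (length_zeros E) (fun i => by rw [ld_zeros]; omega) i

theorem run_cost (E : List (List ℕ × ℕ)) (cap : ℕ) (s : List ℕ) :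
    (s.map fun v => (fin E cap (run E cap s) v).toFinset.card - 1).sum ≤
      dual E cap (zeros E) s :=
  fold_cost E cap s (zeros E) _ (length_zeros E) fun _ => le_rfl

end Pool.Agent.X65.ECC
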