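import Pool.Agent.X65.ECC.Alg
import Pool.Agent.X249.Kit

/-!
# The algorithm runs in polynomial time
-/

set_option autoImplicit false

namespace Pool.Agent.X65.ECC

open Pool.Agent.NPC Pool.Agent.X249

theorem fold_entries (E : List (List ℕ × ℕ)) (cap : ℕ) : ∀ (s L : List ℕ) (B : ℕ),
    L.length = E.length → (∀ i, ld L i ≤ B) → ∀ i, ld (s.foldl (step E cap) L) i ≤ B + s.length
  | [], _, _, _, h => h
  | v :: s, L, B, hL, h => by
    intro i
    have h1 : ∀ i, ld (step E cap L v) i ≤ B + 1 := by
      intro i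
      rw [ld_step hL]
      have := h i
      split_ifs <;> omega
    have h2 := fold_entries E cap s (step E cap L v) (B + 1) (length_step hL) h1 i
    simp only [List.foldl_cons, List.length_cons]
    omega

section

variable {α : Type} [TEnc α]

theorem poly_nd {E : α → List (List ℕ × ℕ)} {i : α → ℕ} (hE : NPC.Poly E) (hi : NPC.Poly i) :
    NPC.Poly (fun x => nd (E x) (i x)) := by
  unfold nd
  fun_prop

theorem poly_cl {E : α → List (List ℕ × ℕ)} {i : α → ℕ} (hE : NPC.Poly E) (hi : NPC.Poly i) :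
    NPC.Poly (fun x => cl (E x) (i x)) := by
  unfold cl
  fun_prop

theorem poly_ld {L : α → List ℕ} {i : α → ℕ} (hL : NPC.Poly L) (hi : NPC.Poly i) :
    NPC.Poly (fun x => ld (L x) (i x)) := by
  unfold ld
  fun_prop

attribute [local fun_prop] poly_nd poly_cl poly_ld Poly.range_length

theorem poly_act {E : α → List (List ℕ × ℕ)} {cap v i : α → ℕ} {L : α → List ℕ}
    (hE : NPC.Poly E) (hc : NPC.Poly cap) (hv : NPC.Poly v) (hL : NPC.Poly L) (hi : NPC.Poly i) :
    NPC.Poly (fun x => act (E x) (cap x) (v x) (L x) (i x)) := by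
  unfold act
  fun_prop

attribute [local fun_prop] poly_act

theorem poly_pick {E : α → List (List ℕ × ℕ)} {cap v i : α → ℕ} {L : α → List ℕ}
    (hE : NPC.Poly E) (hc : NPC.Poly cap) (hv : NPC.Poly v) (hL : NPC.Poly L) (hi : NPC.Poly i) :
    NPC.Poly (fun x => pick (E x) (cap x) (v x) (L x) (i x)) := by
  unfold pick
  fun_prop

attribute [local fun_prop] poly_pick

theorem poly_npick {E : α → List (List ℕ × ℕ)} {cap v : α → ℕ} {L : α → List ℕ}
    (hE : NPC.Poly E) (hc : NPC.Poly cap) (hv : NPC.Poly v) (hL : NPC.Poly L) :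
    NPC.Poly (fun x => npick (E x) (cap x) (v x) (L x)) := by
  unfold npick
  fun_prop

attribute [local fun_prop] poly_npick

theorem poly_step {E : α → List (List ℕ × ℕ)} {cap v : α → ℕ} {L : α → List ℕ}
    (hE : NPC.Poly E) (hc : NPC.Poly cap) (hL : NPC.Poly L) (hv : NPC.Poly v) :
    NPC.Poly (fun x => step (E x) (cap x) (L x) (v x)) := by
  unfold step
  fun_prop

attribute [local fun_prop] poly_step

theorem poly_fin {E : α → List (List ℕ × ℕ)} {cap v : α → ℕ} {L : α → List ℕ}
    (hE : NPC.Poly E) (hc : NPC.Poly cap) (hL : NPC.Poly L) (hv : NPC.Poly v) :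
    NPC.Poly (fun x => fin (E x) (cap x) (L x) (v x)) := by
  unfold fin
  fun_prop

attribute [local fun_prop] poly_fin

end

theorem poly_run_aux :
    NPC.Poly (fun x : List (List ℕ × ℕ) × ℕ × List ℕ => run x.1 x.2.1 x.2.2) := by
  unfold run
  refine NPC.Poly.foldl (l := fun x : List (List ℕ × ℕ) × ℕ × List ℕ => x.2.2)
    (s := fun x => zeros x.1) (F := fun x L v => step x.1 x.2.1 L v) (by fun_prop) ?_ ?_
    (Polynomial.X * (Polynomial.C 4 * Polynomial.X + Polynomial.C 2) + Polynomial.C 1) ?_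
  · unfold zeros
    fun_prop
  · exact poly_step (by fun_prop) (by fun_prop) (by fun_prop) (by fun_prop)
  · rintro ⟨E, cap, s⟩ k hk
    simp only at hk ⊢
    have h1 := fold_length E cap (s.take k) (zeros E) (length_zeros E)
    have h2 := fold_entries E cap (s.take k) (zeros E) 0 (length_zeros E)
      (fun i => by rw [ld_zeros])
    set L := (s.take k).foldl (step E cap) (zeros E)
    have h3 : s.length < sz s := length_lt_sz s
    have h4 : E.length < sz E := length_lt_sz E
    have h5 : sz (E, cap, s) = sz E + (sz cap + sz s + 1) + 1 := by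
      simp only [sz_pair]
    have h6 : ∀ a ∈ L, sz a ≤ 4 * sz (E, cap, s) + 1 := by
      intro a ha
      obtain ⟨i, hi, rfl⟩ := List.getElem_of_mem ha
      have h7 := h2 i
      unfold ld at h7
      rw [List.getD_eq_getElem _ _ hi, List.length_take] at h7
      have h8 := sz_nat_le_linear L[i]
      omega
    have h9 := sz_le_length_mul L _ h6
    refine h9.trans ?_
    simp only [Polynomial.eval_add, Polynomial.eval_mul, Polynomial.eval_C, Polynomial.eval_X]
    rw [h1]
    have h10 : E.length ≤ sz (E, cap, s) := by omega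
    nlinarith

section

variable {α : Type} [TEnc α]

theorem poly_run {E : α → List (List ℕ × ℕ)} {cap : α → ℕ} {s : α → List ℕ}
    (hE : NPC.Poly E) (hc : NPC.Poly cap) (hs : NPC.Poly s) :
    NPC.Poly (fun x => run (E x) (cap x) (s x)) :=
  poly_run_aux.comp (NPC.Poly.pair hE (NPC.Poly.pair hc hs))

theorem poly_sched {V : α → List ℕ} {N T : α → ℕ} (hV : NPC.Poly V)
    (hN : NPC.Poly (fun x => List.range (N x))) (hT : NPC.Poly T) :
    NPC.Poly (fun x => sched (V x) (N x) (T x)) := by
  have h1 : NPC.Poly (fun y : α × ℕ => (List.range (N y.1)).filter fun t => decide (t < T y.1)) :=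
    NPC.Poly.filter (p := fun (y : α × ℕ) t => decide (t < T y.1))
      (hN.comp (NPC.Poly.fst NPC.Poly.id)) (by fun_prop)
  have h2 : NPC.Poly (fun y : α × ℕ =>
      ((List.range (N y.1)).filter fun t => decide (t < T y.1)).map fun _ => y.2) :=
    NPC.Poly.map (F := fun (y : α × ℕ) _ => y.2) h1 (by fun_prop)
  exact NPC.Poly.flatMap (F := fun x v => ((List.range (N x)).filter fun t =>
    decide (t < T x)).map fun _ => v) hV h2

attribute [local fun_prop] poly_fin poly_run poly_sched

theorem poly_out {V C : α → List ℕ} {E : α → List (List ℕ × ℕ)} {cap : α → ℕ} {L : α → List ℕ}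
    (hV : NPC.Poly V) (hC : NPC.Poly C) (hE : NPC.Poly E) (hc : NPC.Poly cap) (hL : NPC.Poly L) :
    NPC.Poly (fun x => out (V x) (C x) (E x) (cap x) (L x)) := by
  unfold out
  fun_prop

attribute [local fun_prop] poly_out

theorem poly_cand {V C : α → List ℕ} {E : α → List (List ℕ × ℕ)} {N cap T : α → ℕ}
    (hV : NPC.Poly V) (hC : NPC.Poly C) (hE : NPC.Poly E)
    (hN : NPC.Poly (fun x => List.range (N x))) (hc : NPC.Poly cap) (hT : NPC.Poly T) :
    NPC.Poly (fun x => cand (V x) (C x) (E x) (N x) (cap x) (T x)) := by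
  unfold cand
  fun_prop

theorem poly_range {E : α → List (List ℕ × ℕ)} (hE : NPC.Poly E) (p : ℕ) :
    NPC.Poly (fun x => List.range (p * (E x).length + ((E x).length + 1))) :=
  ((((UPoly.const p).mul (UPoly.length hE)).add
    ((UPoly.length hE).add (UPoly.const 1)))).range

theorem poly_range' {E : α → List (List ℕ × ℕ)} (hE : NPC.Poly E) :
    NPC.Poly (fun x => List.range ((E x).length + 1)) :=
  ((UPoly.length hE).add (UPoly.const 1)).range

theorem poly_costL {V : α → List ℕ} {s : α → List (ℕ × ℕ)} (hV : NPC.Poly V) (hs : NPC.Poly s) :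
    NPC.Poly (fun x => costL (V x) (s x)) := by
  unfold costL
  fun_prop

theorem poly_mistL {E : α → List (List ℕ × ℕ)} {s : α → List (ℕ × ℕ)} (hE : NPC.Poly E)
    (hs : NPC.Poly s) : NPC.Poly (fun x => mistL (E x) (s x)) := by
  unfold mistL
  fun_prop

theorem poly_good (p q : ℕ) {V C : α → List ℕ} {E : α → List (List ℕ × ℕ)} {b m : α → ℕ}
    (hV : NPC.Poly V) (hC : NPC.Poly C) (hE : NPC.Poly E) (hb : NPC.Poly b) (hm : NPC.Poly m) :
    NPC.Poly (fun x => good p q (V x) (C x) (E x) (b x) (m x)) := by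
  have h1 : NPC.Poly (fun x => cand (V x) (C x) (E x) (p * (E x).length + ((E x).length + 1))
      (q * b x) (p * m x)) :=
    poly_cand hV hC hE (poly_range hE p) (by fun_prop) (by fun_prop)
  have h2 := poly_costL hV h1
  have h3 := poly_mistL hE h1
  unfold good
  fun_prop

theorem poly_guess (p q : ℕ) {V C : α → List ℕ} {E : α → List (List ℕ × ℕ)} {b : α → ℕ}
    (hV : NPC.Poly V) (hC : NPC.Poly C) (hE : NPC.Poly E) (hb : NPC.Poly b) :
    NPC.Poly (fun x => guess p q (V x) (C x) (E x) (b x)) := by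
  have h1 : NPC.Poly (fun x => (List.range ((E x).length + 1)).filter
      fun m => good p q (V x) (C x) (E x) (b x) m) :=
    NPC.Poly.filter (p := fun x m => good p q (V x) (C x) (E x) (b x) m) (poly_range' hE)
      (poly_good p q (by fun_prop) (by fun_prop) (by fun_prop) (by fun_prop) (by fun_prop))
  unfold guess
  fun_prop

end

/-- **The algorithm runs in polynomial time.** -/
theorem poly_alg (p q : ℕ) : NPC.Poly (alg p q) := by
  have h1 : NPC.Poly (fun x : List ℕ × List ℕ × List (List ℕ × ℕ) × ℕ =>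
      cand x.1 x.2.1 x.2.2.1 (p * x.2.2.1.length + (x.2.2.1.length + 1)) 1
        (x.2.2.1.length + 1)) :=
    poly_cand (by fun_prop) (by fun_prop) (by fun_prop) (poly_range (by fun_prop) p)
      (by fun_prop) (by fun_prop)
  have h2 : NPC.Poly (fun x : List ℕ × List ℕ × List (List ℕ × ℕ) × ℕ =>
      guess p q x.1 x.2.1 x.2.2.1 x.2.2.2) :=
    poly_guess p q (by fun_prop) (by fun_prop) (by fun_prop) (by fun_prop)
  have h3 : NPC.Poly (fun x : List ℕ × List ℕ × List (List ℕ × ℕ) × ℕ =>
      cand x.1 x.2.1 x.2.2.1 (p * x.2.2.1.length + (x.2.2.1.length + 1)) (q * x.2.2.2)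
        (p * guess p q x.1 x.2.1 x.2.2.1 x.2.2.2)) :=
    poly_cand (by fun_prop) (by fun_prop) (by fun_prop) (poly_range (by fun_prop) p)
      (by fun_prop) (by fun_prop)
  unfold alg
  exact NPC.Poly.ite (p := fun x : List ℕ × List ℕ × List (List ℕ × ℕ) × ℕ => x.2.2.2 = 0)
    (by fun_prop) h1 h3

end Pool.Agent.X65.ECC
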